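import Mathlib
import Pool.Agent.Q195.HD8

/-!
# Polynomials with an arbitrary constant term

Let `F = a_0 + a_1 y + ... + a_d y^d` be a polynomial of degree `d ≥ 2` over a number field `K` of
degree at most `D`, let `B ≥ 1`, and let `p` be a prime number such that `d` is prime to `p` and to
`p ^ f - 1` for all `f ≤ D B²` (over `ℚ`, with `B = 1`: `p = 2` and `d` odd). Suppose that at one
place above `p`

  `|a_k|^(d-1) ≤ |a_d|^(k-1)` for `1 ≤ k < d`,

for instance `|a_d| = 1` and `|a_k| ≤ 1` for `k ≥ 1`. The constant term `a_0` and all the other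
places are arbitrary; so `F` may have any number of places of bad reduction.

* The number of periodic points `x` of `F` with `[K(x) : K] ≤ B` is bounded in terms of `D`, `B`,
  `d`, `p` only.
* The same holds for the preperiodic points if `|F'(y)| = 1` for all `y` with `[K(y) : K] ≤ B` and
  `|a_d| |y|^(d-1) ≤ 1` (only the residue class of `y` matters).
* If `|a_d| |a_0|^(d-1) > 1`, then there is at most one preperiodic point `x` with
  `[K(x) : K] ≤ B`.

Proof. If the constant term is large, all preperiodic points have the same absolute value, `y^d`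
determines the residue class of `y`, and `F` expands the distances; so there is only one. Otherwise
every finite orbit is integral after division by its largest member. The universal period of the
periodic points comes from the finiteness of `O_w / p²`. If the derivative is a unit, `F` is an
isometry on residue classes, so that a preperiodic point becomes periodic as soon as its residue
class becomes periodic.
-/

set_option autoImplicit false

namespace Pool.Agent.Results.MP_90787a_nt.ArbitraryConstantTerm

open Polynomial Module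

/-- The periodic points `x` of `F` over the algebraic closure with `[K(x) : K] ≤ B`. -/
def periodicPoints {K : Type} [Field K] (F : K[X]) (B : ℕ) : Set (AlgebraicClosure K) :=
  {x | (∃ n : ℕ, 0 < n ∧ (fun y => aeval y F)^[n] x = x) ∧
    finrank K (IntermediateField.adjoin K {x}) ≤ B}

/-- The preperiodic points `x` of `F` over the algebraic closure with `[K(x) : K] ≤ B`. -/
def preperiodicPoints {K : Type} [Field K] (F : K[X]) (B : ℕ) : Set (AlgebraicClosure K) :=
  {x | (∃ s t : ℕ, s < t ∧ (fun y => aeval y F)^[s] x = (fun y => aeval y F)^[t] x) ∧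
    finrank K (IntermediateField.adjoin K {x}) ≤ B}

/-- The absolute value of the algebraic closure of `K` given by the homomorphism `σ` to the
algebraic closure of `ℚ_p`. -/
noncomputable def absP {p : ℕ} [Fact p.Prime] {K : Type} [Field K]
    (σ : AlgebraicClosure K →+* PadicAlgCl p) (x : AlgebraicClosure K) : ℝ := ‖σ x‖

/-- `|a_k|^(d-1) ≤ |a_d|^(k-1)` for `1 ≤ k < d`, where `F = a_0 + ... + a_d y^d`. -/
def Dominated {p : ℕ} [Fact p.Prime] {K : Type} [Field K]
    (σ : AlgebraicClosure K →+* PadicAlgCl p) (F : K[X]) : Prop :=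
  ∀ k, 1 ≤ k → k < F.natDegree →
    absP σ (algebraMap K (AlgebraicClosure K) (F.coeff k)) ^ (F.natDegree - 1) ≤
      absP σ (algebraMap K (AlgebraicClosure K) F.leadingCoeff) ^ (k - 1)

/-- `|F'(y)| ≥ 1` for all `y` with `[K(y) : K] ≤ B` and `|a_d| |y|^(d-1) ≤ 1`. -/
def UnitDerivative {p : ℕ} [Fact p.Prime] {K : Type} [Field K]
    (σ : AlgebraicClosure K →+* PadicAlgCl p) (F : K[X]) (B : ℕ) : Prop :=
  ∀ y : AlgebraicClosure K, finrank K (IntermediateField.adjoin K {y}) ≤ B →
    absP σ (algebraMap K (AlgebraicClosure K) F.leadingCoeff) * absP σ y ^ (F.natDegree - 1) ≤ 1 →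
    1 ≤ absP σ (aeval y (derivative F))

lemma encard_le_of_finset {α : Type*} (s : Set α) (n : ℕ)
    (h : ∀ Y : Finset α, (∀ P ∈ Y, P ∈ s) → Y.card ≤ n) : s.encard ≤ n := by
  classical
  by_contra hcon
  push Not at hcon
  have h1 : ((n + 1 : ℕ) : ℕ∞) ≤ s.encard := by
    push_cast
    exact Order.add_one_le_of_lt hcon
  obtain ⟨t, hts, ht⟩ := Set.exists_subset_encard_eq h1
  have hfin : t.Finite := Set.finite_of_encard_eq_coe ht
  have h2 := h hfin.toFinset (fun P hP => hts (by simpa using hP))
  have h3 : t.encard = (hfin.toFinset.card : ℕ∞) := hfin.encard_eq_coe_toFinset_card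
  rw [h3] at ht
  have h4 : hfin.toFinset.card = n + 1 := by exact_mod_cast ht
  omega

/-- the absolute value given by a homomorphism to a normed field -/
noncomputable def absOf {Ω E : Type} [Field Ω] [NormedField E] (ι : Ω →+* E) :
    AbsoluteValue Ω ℝ where
  toFun x := ‖ι x‖
  map_mul' x y := by rw [map_mul, norm_mul]
  nonneg' x := norm_nonneg _
  eq_zero' x := by rw [norm_eq_zero, map_eq_zero]
  add_le' x y := by rw [map_add]; exact norm_add_le _ _

/-- every rational number which is integral at `2` is congruent to `0` or `1` -/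
lemma zero_or_one (w : AbsoluteValue ℚ ℝ) (hna : IsNonarchimedean w) (h2 : w ((2 : ℕ) : ℚ) < 1)
    (y : ℚ) (hy : w y ≤ 1) : w y < 1 ∨ w (y - 1) < 1 := by
  have hodd : ∀ m : ℤ, Odd m → w (m : ℚ) = 1 := by
    intro m hm
    have h1 := Pool.Agent.Q195.HD.w_coprime (m := m.natAbs) hna h2
      (Nat.coprime_two_right.2 (Int.natAbs_odd.2 hm))
    rcases Int.natAbs_eq m with h | h
    · rw [h, Int.cast_natCast]; exact h1
    · rw [h, Int.cast_neg, Pool.Agent.Q195.HD.w_neg, Int.cast_natCast]; exact h1
  have heven : ∀ m : ℤ, Even m → w (m : ℚ) < 1 := by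
    rintro m ⟨k, rfl⟩
    have e : ((k + k : ℤ) : ℚ) = ((2 : ℕ) : ℚ) * (k : ℚ) := by push_cast; ring
    rw [e, map_mul]
    calc w ((2 : ℕ) : ℚ) * w (k : ℚ) ≤ w ((2 : ℕ) : ℚ) * 1 :=
          mul_le_mul_of_nonneg_left (Pool.Agent.Q195.HD.w_int hna k) (w.nonneg _)
      _ < 1 := by rw [mul_one]; exact h2
  have hden0 : (y.den : ℚ) ≠ 0 := by exact_mod_cast y.den_nz
  have hy' : y = (y.num : ℚ) / ((y.den : ℤ) : ℚ) := by
    push_cast
    exact (Rat.num_div_den y).symm
  have hco : IsCoprime y.num (y.den : ℤ) := by
    rw [Int.isCoprime_iff_gcd_eq_one]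
    exact y.reduced
  have hdo : Odd (y.den : ℤ) := by
    by_contra hcon
    rw [Int.not_odd_iff_even] at hcon
    have hno : Odd y.num := by
      by_contra hn
      rw [Int.not_odd_iff_even] at hn
      have := hco.isUnit_of_dvd' hn.two_dvd hcon.two_dvd
      rw [Int.isUnit_iff] at this
      omega
    have h1 := hodd _ hno
    have h3 := heven _ hcon
    rw [hy', map_div₀, h1] at hy
    have h4 : 0 < w (((y.den : ℤ)) : ℚ) := w.pos (by exact_mod_cast y.den_nz)
    rw [div_le_one h4] at hy
    linarith
  have hwd := hodd _ hdo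
  rcases Int.even_or_odd y.num with h | h
  · left
    rw [hy', map_div₀, hwd, div_one]
    exact heven _ h
  · right
    have e : y - 1 = ((y.num - (y.den : ℤ) : ℤ) : ℚ) / ((y.den : ℤ) : ℚ) := by
      conv_lhs => rw [hy']
      push_cast
      field_simp
    rw [e, map_div₀, hwd, div_one]
    exact heven _ (h.sub_odd hdo)

/-- polynomials with integral coefficients do not increase distances -/
lemma eval_sub_le {K : Type} [Field K] {w : AbsoluteValue K ℝ} (hna : IsNonarchimedean w)
    (G : K[X]) (hG : ∀ k, w (G.coeff k) ≤ 1) {x y : K} (hx : w x ≤ 1) (hy : w y ≤ 1) :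
    w (G.eval x - G.eval y) ≤ w (x - y) := by
  rw [eval_eq_sum_range, eval_eq_sum_range, ← Finset.sum_sub_distrib]
  refine Pool.Agent.Q195.HD.w_sum_le hna _ _ _ (w.nonneg _) fun k _ => ?_
  rw [← mul_sub, map_mul]
  calc w (G.coeff k) * w (x ^ k - y ^ k) ≤ 1 * w (x - y) := by
        refine mul_le_mul (hG k) ?_ (w.nonneg _) zero_le_one
        have := Pool.Agent.Q195.HD.pow_sub_le hna hx hy k
        rwa [one_pow, one_mul] at this
    _ = _ := one_mul _

/-- **Uniform boundedness for polynomials with an arbitrary constant term.**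
(1) Let `D, B ≥ 1`, `d ≥ 2` and let `p` be a prime number such that `d` is prime to `p (p ^ f - 1)`
for `1 ≤ f ≤ D B²`. There is a constant `C` such that for every number field `K` of degree at most
`D`, every polynomial `F = a_0 + ... + a_d y^d` of degree `d` over `K` and every place `σ` above `p`
with `|a_k|^(d-1) ≤ |a_d|^(k-1)` for `1 ≤ k < d`: at most `C` periodic points of `F` have degree at
most `B` over `K`; if `|F'(y)| ≥ 1` for all `y` of degree at most `B` with `|a_d| |y|^(d-1) ≤ 1`,
then at most `C` preperiodic points have degree at most `B`; and if `|a_d| |a_0|^(d-1) > 1`, then at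
most one preperiodic point has degree at most `B`.
(2) Over the rational numbers: for every odd `d ≥ 3` there is `C` such that for all `F ∈ ℚ[y]` of
degree `d` with `2`-integral coefficients `a_1, ..., a_{d-1}`, with a `2`-adic unit `a_d` and with an
arbitrary constant term `a_0 ∈ ℚ`: `F` has at most `C` rational periodic points; if `F'(0)` and
`F'(1)` are `2`-adic units, then `F` has at most `C` rational preperiodic points; and if `a_0` is
not `2`-integral, then `F` has at most one rational preperiodic point. -/
theorem result :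
    (∀ (D B d p : ℕ) [Fact p.Prime], 1 ≤ D → 1 ≤ B → 2 ≤ d →
      (∀ f, 1 ≤ f → f ≤ D * B ^ 2 → Nat.Coprime d (p * (p ^ f - 1))) →
      ∃ C : ℕ, ∀ (K : Type) [Field K] [NumberField K], finrank ℚ K ≤ D →
        ∀ F : K[X], F.natDegree = d → ∀ σ : AlgebraicClosure K →+* PadicAlgCl p, Dominated σ F →
          (periodicPoints F B).encard ≤ C ∧
          (UnitDerivative σ F B → (preperiodicPoints F B).encard ≤ C) ∧
          (1 < absP σ (algebraMap K (AlgebraicClosure K) F.leadingCoeff) *
              absP σ (algebraMap K (AlgebraicClosure K) (F.coeff 0)) ^ (d - 1) →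
            (preperiodicPoints F B).encard ≤ 1)) ∧
    (∀ d : ℕ, 3 ≤ d → Odd d → ∃ C : ℕ, ∀ F : ℚ[X], F.natDegree = d →
      (∀ k, 1 ≤ k → k < d → padicNorm 2 (F.coeff k) ≤ 1) → padicNorm 2 F.leadingCoeff = 1 →
        {x : ℚ | ∃ n : ℕ, 0 < n ∧ (fun y => F.eval y)^[n] x = x}.encard ≤ C ∧
        (padicNorm 2 (F.derivative.eval 0) = 1 → padicNorm 2 (F.derivative.eval 1) = 1 →
          {x : ℚ | ∃ s t : ℕ, s < t ∧
            (fun y => F.eval y)^[s] x = (fun y => F.eval y)^[t] x}.encard ≤ C) ∧
        (1 < padicNorm 2 (F.coeff 0) →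
          {x : ℚ | ∃ s t : ℕ, s < t ∧
            (fun y => F.eval y)^[s] x = (fun y => F.eval y)^[t] x}.encard ≤ 1)) := by
  refine ⟨?_, ?_⟩
  · intro D B d p hpf hD hB hd hcop
    have hp : p.Prime := hpf.out
    have hDB : 1 ≤ D * B ^ 2 := Nat.mul_pos hD (pow_pos hB 2)
    have hpd : Nat.Coprime d p := (hcop 1 le_rfl hDB).coprime_mul_right_right
    have hcop' : ∀ f, 1 ≤ f → f ≤ D * B ^ 2 → Nat.Coprime d (p ^ f - 1) := fun f h1 h2 =>
      (hcop f h1 h2).coprime_mul_left_right
    refine ⟨d ^ (Pool.Agent.Q195.HD.per p (D * B) + p ^ (D * B)), ?_⟩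
    intro K _ _ hK F hF σ hσ
    let w : AbsoluteValue (AlgebraicClosure K) ℝ := absOf σ
    have hna : IsNonarchimedean w := by
      intro x y
      show ‖σ (x + y)‖ ≤ max ‖σ x‖ ‖σ y‖
      rw [map_add]
      exact PadicAlgCl.isNonarchimedean p _ _
    have hwp : w (p : AlgebraicClosure K) < 1 := by
      show ‖σ (p : AlgebraicClosure K)‖ < 1
      rw [map_natCast]
      have h1 : ((p : ℕ) : PadicAlgCl p) = ((p : ℚ_[p]) : PadicAlgCl p) := by
        rw [map_natCast]
      rw [h1, PadicAlgCl.norm_extends]
      exact Padic.norm_p_lt_one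
    have hmid : Pool.Agent.Q195.HD.Mid w (F.map (algebraMap K (AlgebraicClosure K))) 0 := by
      intro k h1 h2
      rw [natDegree_map] at h2
      rw [natDegree_map, leadingCoeff_map, coeff_map, map_zero, max_eq_left zero_le_one, one_pow,
        one_mul]
      exact hσ k h1 h2
    have hfun : (fun y : AlgebraicClosure K => aeval y F) =
        fun y => (F.map (algebraMap K (AlgebraicClosure K))).eval y := by
      funext y
      rw [eval_map, aeval_def]
    refine ⟨?_, fun hder => ?_, fun hlarge => ?_⟩
    · apply encard_le_of_finset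
      intro S hS
      refine Pool.Agent.Q195.HD.global1 hd hp hpd hcop' hK w hna hwp F hF hmid S
        (fun x hx => (hS x hx).2) (Or.inl fun x hx => ?_)
      have := (hS x hx).1
      rwa [hfun] at this
    · apply encard_le_of_finset
      intro S hS
      refine Pool.Agent.Q195.HD.global1 hd hp hpd hcop' hK w hna hwp F hF hmid S
        (fun x hx => (hS x hx).2) (Or.inr ⟨fun x hx => ?_, fun y hy hy2 => ?_⟩)
      · have := (hS x hx).1
        rwa [hfun] at this
      · have h1 := hder y hy (by
          rw [leadingCoeff_map] at hy2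
          rw [hF]
          exact hy2)
        have e : (F.map (algebraMap K (AlgebraicClosure K))).derivative.eval y =
            aeval y (derivative F) := by
          rw [derivative_map, eval_map, aeval_def]
        rw [e]
        exact h1
    · rw [Set.encard_le_one_iff]
      intro x z hx hz
      refine Pool.Agent.Q195.HD.glob_unique hd hp hpd hcop' hK w hna hwp F hF hmid ?_ ?_ ?_ hx.2 hz.2
      · have e : (F.map (algebraMap K (AlgebraicClosure K))).eval 0 =
            algebraMap K (AlgebraicClosure K) (F.coeff 0) := by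
          rw [eval_map, ← map_zero (algebraMap K (AlgebraicClosure K)), eval₂_at_apply,
            coeff_zero_eq_eval_zero]
        rw [leadingCoeff_map, e]
        exact hlarge
      · have := hx.1
        rwa [hfun] at this
      · have := hz.1
        rwa [hfun] at this
  · intro d hd hodd
    have hpf : Fact (Nat.Prime 2) := ⟨Nat.prime_two⟩
    refine ⟨d ^ (Pool.Agent.Q195.HD.per 2 (1 * 1) + 2 ^ (1 * 1)), ?_⟩
    intro F hF hmid0 hlc
    let w : AbsoluteValue ℚ ℝ := absOf (Rat.castHom ℚ_[2])
    have hw : ∀ x : ℚ, w x = ((padicNorm 2 x : ℚ) : ℝ) := by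
      intro x
      show ‖(Rat.castHom ℚ_[2]) x‖ = _
      rw [Rat.coe_castHom]
      exact Padic.eq_padicNorm x
    have hna : IsNonarchimedean w := by
      intro x y
      show ‖(Rat.castHom ℚ_[2]) (x + y)‖ ≤ max ‖(Rat.castHom ℚ_[2]) x‖ ‖(Rat.castHom ℚ_[2]) y‖
      rw [map_add]
      exact Padic.nonarchimedean _ _
    have hwp : w ((2 : ℕ) : ℚ) < 1 := by
      show ‖(Rat.castHom ℚ_[2]) ((2 : ℕ) : ℚ)‖ < 1
      rw [map_natCast]
      exact Padic.norm_p_lt_one
    have hmapid : F.map (algebraMap ℚ ℚ) = F := by rw [Algebra.algebraMap_self, Polynomial.map_id]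
    have hlc' : w F.leadingCoeff = 1 := by rw [hw, hlc]; simp
    have hmid' : ∀ k, 1 ≤ k → k < d → w (F.coeff k) ≤ 1 := by
      intro k h1 h2
      rw [hw]
      exact_mod_cast hmid0 k h1 h2
    have hmid : Pool.Agent.Q195.HD.Mid w (F.map (algebraMap ℚ ℚ)) 0 := by
      rw [hmapid]
      intro k h1 h2
      rw [hlc', map_zero, max_eq_left zero_le_one, one_pow, one_pow, one_mul]
      rw [hF] at h2
      exact pow_le_one₀ (w.nonneg _) (hmid' k h1 h2)
    have hpd : Nat.Coprime d 2 := Nat.coprime_two_right.2 hodd
    have hcop' : ∀ f, 1 ≤ f → f ≤ 1 * 1 ^ 2 → Nat.Coprime d (2 ^ f - 1) := by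
      intro f hf1 hf2
      have : f = 1 := by omega
      subst this
      simp
    have hK : finrank ℚ ℚ ≤ 1 := by rw [finrank_self]
    have hB : ∀ x : ℚ, finrank ℚ (IntermediateField.adjoin ℚ ({x} : Set ℚ)) ≤ 1 := by
      intro x
      calc finrank ℚ (IntermediateField.adjoin ℚ ({x} : Set ℚ)) ≤ finrank ℚ ℚ :=
            Submodule.finrank_le
              (IntermediateField.adjoin ℚ ({x} : Set ℚ)).toSubalgebra.toSubmodule
        _ = 1 := finrank_self ℚ
    refine ⟨?_, fun hd0 hd1 => ?_, fun hlarge => ?_⟩
    · apply encard_le_of_finset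
      intro S hS
      refine Pool.Agent.Q195.HD.global1 (by omega) Nat.prime_two hpd hcop' hK w hna hwp F hF hmid S
        (fun x _ => hB x) (Or.inl fun x hx => ?_)
      rw [hmapid]
      exact hS x hx
    · apply encard_le_of_finset
      intro S hS
      refine Pool.Agent.Q195.HD.global1 (by omega) Nat.prime_two hpd hcop' hK w hna hwp F hF hmid S
        (fun x _ => hB x) (Or.inr ⟨fun x hx => ?_, fun y _ hy => ?_⟩)
      · rw [hmapid]
        exact hS x hx
      · rw [hmapid] at hy ⊢
        rw [hlc', one_mul] at hy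
        have hy1 : w y ≤ 1 := by
          by_contra hcon
          push Not at hcon
          exact absurd hy (not_le.2 (one_lt_pow₀ hcon (by omega)))
        have hG : ∀ k, w (F.derivative.coeff k) ≤ 1 := by
          intro k
          rw [coeff_derivative, map_mul]
          have h1 : w ((k : ℚ) + 1) ≤ 1 := by
            have := Pool.Agent.Q195.HD.w_nat hna (k + 1)
            push_cast at this
            exact this
          have h2 : w (F.coeff (k + 1)) ≤ 1 := by
            rcases lt_trichotomy (k + 1) d with h | h | h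
            · exact hmid' _ (by omega) h
            · rw [h, ← hF]
              exact hlc'.le
            · rw [coeff_eq_zero_of_natDegree_lt (by rw [hF]; exact h)]
              simp
          calc w (F.coeff (k + 1)) * w ((k : ℚ) + 1) ≤ 1 * 1 :=
                mul_le_mul h2 h1 (w.nonneg _) zero_le_one
            _ = 1 := one_mul 1
        have hfin : ∀ c : ℚ, w c ≤ 1 → w (F.derivative.eval c) = 1 → w (y - c) < 1 →
            1 ≤ w (F.derivative.eval y) := by
          intro c hc hc1 hyc
          have h1 := eval_sub_le hna F.derivative hG hy1 hc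
          have e : F.derivative.eval y = (F.derivative.eval y - F.derivative.eval c) +
            F.derivative.eval c := by ring
          rw [e, Pool.Agent.Q195.HD.w_add_eq hna, hc1]
          rw [hc1]
          exact lt_of_le_of_lt h1 hyc
        rcases zero_or_one w hna hwp y hy1 with h | h
        · exact hfin 0 (by simp) (by rw [hw, hd0]; simp) (by rw [sub_zero]; exact h)
        · exact hfin 1 (by simp) (by rw [hw, hd1]; simp) h
    · rw [Set.encard_le_one_iff]
      intro x z hx hz
      refine Pool.Agent.Q195.HD.glob_unique (B := 1) (D := 1) (by omega) Nat.prime_two hpd hcop' hK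
        w hna hwp F hF hmid ?_ ?_ ?_ (hB x) (hB z)
      · rw [hmapid, hlc', one_mul, ← coeff_zero_eq_eval_zero, hw]
        apply one_lt_pow₀ _ (by omega)
        exact_mod_cast hlarge
      · rw [hmapid]
        exact hx
      · rw [hmapid]
        exact hz

end Pool.Agent.Results.MP_90787a_nt.ArbitraryConstantTerm
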