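import Mathlib
import Pool.Agent.Q15.DYN.IntPort2

/-!
# The preperiodic points of 100% of the integral members of families over number fields

For every algebraic family of rational maps of the line of degree `d ≥ 2` over a number field `k`,
with any number of parameters, the preperiodic points in `ℙ¹(k)` of 100% of the members at integral
parameters `v ∈ O_k^m` are exactly the specialisations of the preperiodic points of the generic
member in `ℙ¹(k(t_1, ..., t_m))`, without collisions and with the same directed graph; and if the
family is not constant, there are at most `N(d)` of them, where `N(d)` depends on nothing but `d`: not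
on the family, not on the number of parameters and not on the number field `k` or its degree.

The integral members are a set of density zero among the members at the rational parameters, so that
this does not follow from the theorem over `ℚ` about 100% of the rational parameters (starting file
`Results/MP_c076ed_nt/UniformPortrait.lean`); number fields were not treated there either.

The first part comes from a transfer to the ultrapower of `k` along an ultrafilter on the integral
parameters without sets of upper density zero (`Pool.Agent.Y706`); the bound comes from the uniform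
boundedness theorem for all rational maps over purely transcendental extensions
(`Results/MP_9b502d_nt/AnyTranscendenceDegree.lean`).
-/

set_option autoImplicit false

namespace Pool.Agent.Results.MP_90787a_nt.IntegralPortrait

open MvPolynomial Filter Topology NumberField

/-- The forms have no common zero over the algebraic closure other than the origin. -/
def IsMorphism {K : Type} [Field K] (F : Fin 2 → MvPolynomial (Fin 2) K) : Prop :=
  ∀ x : Fin 2 → AlgebraicClosure K, (∀ i, aeval x (F i) = 0) → x = 0

/-- The vector of the values of the forms. -/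
noncomputable def image {K : Type} [Field K] (F : Fin 2 → MvPolynomial (Fin 2) K)
    (x : Fin 2 → K) : Fin 2 → K := fun i => eval x (F i)

/-- The point of `ℙ¹(K)` with homogeneous coordinates `x` is preperiodic: its forward orbit, as a set
of lines in the plane `K²`, is finite. -/
def IsPreperiodic {K : Type} [Field K] (F : Fin 2 → MvPolynomial (Fin 2) K) (x : Fin 2 → K) : Prop :=
  (Set.range fun j : ℕ => Submodule.span K {(image F)^[j] x}).Finite

/-- The vectors `y 0, ..., y (r - 1)` are homogeneous coordinates of the preperiodic points of `F` in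
`ℙ¹(K)`, each point occurs once, and `F` maps the `i`-th point to the point with the number `σ i`. -/
def IsPortrait {K : Type} [Field K] {r : ℕ} (F : Fin 2 → MvPolynomial (Fin 2) K)
    (y : Fin r → Fin 2 → K) (σ : Fin r → Fin r) : Prop :=
  (∀ i, y i ≠ 0) ∧ (∀ i j, ∀ c : K, y i = c • y j → i = j) ∧
  (∀ i, ∃ c : K, c ≠ 0 ∧ image F (y i) = c • y (σ i)) ∧
  ∀ z : Fin 2 → K, z ≠ 0 → (IsPreperiodic F z ↔ ∃ i, ∃ c : K, z = c • y i)

/-- The field `k(t_1, ..., t_m)`, as the field of fractions of `O_k[t_1, ..., t_m]`. -/
abbrev RF (k : Type) [Field k] [NumberField k] (m : ℕ) : Type :=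
  FractionRing (MvPolynomial (Fin m) (𝓞 k))

/-- The generic member of the family `F`, over `k(t_1, ..., t_m)`. -/
noncomputable def generic {k : Type} [Field k] [NumberField k] {m : ℕ}
    (F : Fin 2 → MvPolynomial (Fin 2) (MvPolynomial (Fin m) (𝓞 k))) :
    Fin 2 → MvPolynomial (Fin 2) (RF k m) :=
  fun i => (F i).map (algebraMap (MvPolynomial (Fin m) (𝓞 k)) (RF k m))

/-- The member of the family `F` at the integral vector `v`. -/
noncomputable def member {k : Type} [Field k] [NumberField k] {m : ℕ}
    (F : Fin 2 → MvPolynomial (Fin 2) (MvPolynomial (Fin m) (𝓞 k))) (v : Fin m → 𝓞 k) :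
    Fin 2 → MvPolynomial (Fin 2) k :=
  fun i => (F i).map ((algebraMap (𝓞 k) k).comp (eval v))

/-- The vectors of integers of `k` whose coordinates with respect to the basis `ω` are at most `H`
in absolute value. -/
def box {k : Type} [Field k] {J : Type} (ω : Module.Basis J ℤ (𝓞 k)) (m H : ℕ) :
    Set (Fin m → 𝓞 k) :=
  {v | ∀ l j, |ω.repr (v l) j| ≤ (H : ℤ)}

/-- The set `S` contains 100% of the vectors in the boxes. -/
def AlmostAll {k : Type} [Field k] {J : Type} (ω : Module.Basis J ℤ (𝓞 k)) (m : ℕ)
    (S : Set (Fin m → 𝓞 k)) : Prop :=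
  Tendsto (fun H : ℕ => (({v | v ∈ box ω m H ∧ v ∈ S}.ncard : ℝ) / ((box ω m H).ncard : ℝ)))
    atTop (𝓝 1)

/-- The polynomial `G(x, 1)` in one variable for a binary form `G`. -/
noncomputable def affine {K : Type} [Field K] (G : MvPolynomial (Fin 2) K) : Polynomial K :=
  aeval ![Polynomial.X, 1] G

/-- The endomorphism `f = [F_0 : F_1]` of `ℙ¹` of degree `d` over `K` is constant: it is conjugate
over `K` to a map with coefficients algebraic over `ℤ` (for `K = k(t_1, ..., t_m)` with `k` a number
field these are the elements of `k`). That is, for `φ(x) = (a x + b) / (c x + e)` with some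
`a, b, c, e` in `K`, `a e ≠ b c`, and some polynomials `u, w` of degree at most `d`, not both zero,
with coefficients algebraic over `ℤ`, the rational function `p / q`, where `p = F_0(x, 1)` and
`q = F_1(x, 1)`, satisfies `φ ∘ (p / q) = (u / w) ∘ φ`; the equation is written with denominators
cleared. -/
def IsConstant {K : Type} [Field K] (F : Fin 2 → MvPolynomial (Fin 2) K) (d : ℕ) : Prop :=
  ∃ a b c e : K, a * e - b * c ≠ 0 ∧ ∃ u w : Polynomial K, (u ≠ 0 ∨ w ≠ 0) ∧
    u.natDegree ≤ d ∧ w.natDegree ≤ d ∧ (∀ n, IsAlgebraic ℤ (u.coeff n)) ∧
    (∀ n, IsAlgebraic ℤ (w.coeff n)) ∧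
    (Polynomial.C a * affine (F 0) + Polynomial.C b * affine (F 1)) *
      ∑ i ∈ Finset.range (d + 1), Polynomial.C (w.coeff i) *
        (Polynomial.C a * Polynomial.X + Polynomial.C b) ^ i *
        (Polynomial.C c * Polynomial.X + Polynomial.C e) ^ (d - i) =
    (Polynomial.C c * affine (F 0) + Polynomial.C e * affine (F 1)) *
      ∑ i ∈ Finset.range (d + 1), Polynomial.C (u.coeff i) *
        (Polynomial.C a * Polynomial.X + Polynomial.C b) ^ i *
        (Polynomial.C c * Polynomial.X + Polynomial.C e) ^ (d - i)

lemma alg_down {k K L : Type} [Field k] [NumberField k] [Field K] [Field L] [Algebra k L]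
    (T : K →+* L) (x : K) (h : IsAlgebraic k (T x)) : IsAlgebraic ℤ x := by
  have h1 : Algebra.IsAlgebraic ℤ k := by
    have : Algebra.IsAlgebraic ℚ k := inferInstance
    exact (IsFractionRing.comap_isAlgebraic_iff (A := ℤ) (K := ℚ) (C := k)).2 this
  have h2 : IsAlgebraic ℤ (T x) := h.restrictScalars ℤ
  exact (isAlgebraic_algHom_iff T.toIntAlgHom T.injective).1 h2

/-- There is a function `N` with the following property. Let `k` be a number field (of any degree)
with an integral basis `ω`, and let `F_0, F_1` be binary forms of degree `d ≥ 2` with coefficients in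
`O_k[t_1, ..., t_m]` and without a common zero over the algebraic closure of `k(t_1, ..., t_m)`: a
family of endomorphisms of `ℙ¹` of degree `d`, with any number `m` of parameters. There are `r`
vectors `x_i` of two polynomials in `O_k[t_1, ..., t_m]` and a map `σ` of the set of the indices to
itself such that

* `r ≤ N(d)`, unless the generic member is constant, that is, conjugate over `k(t_1, ..., t_m)` to a
  map over `k`;
* the `x_i` are the homogeneous coordinates of the preperiodic points of the generic member `F` in
  `ℙ¹(k(t_1, ..., t_m))`, without repetitions, and `F` maps the `i`-th point to the `σ(i)`-th;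
* for 100% of the vectors `v = (v_1, ..., v_m)` of integers of `k` the member `F_v` at `t = v` is an
  endomorphism of `ℙ¹`, the vectors `x_i(v)` are the homogeneous coordinates of all the preperiodic
  points of `F_v` in `ℙ¹(k)`, without repetitions, and `F_v` maps the `i`-th point to the `σ(i)`-th;
  so `F_v` has exactly `r` preperiodic points over `k`. -/
theorem result : ∃ N : ℕ → ℕ, ∀ (k : Type) [Field k] [NumberField k] (J : Type) [Fintype J]
    (ω : Module.Basis J ℤ (𝓞 k)) (d : ℕ), 2 ≤ d → ∀ (m : ℕ)
    (F : Fin 2 → MvPolynomial (Fin 2) (MvPolynomial (Fin m) (𝓞 k))), (∀ i, (F i).IsHomogeneous d) →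
    IsMorphism (generic F) →
    ∃ (r : ℕ) (x : Fin r → Fin 2 → MvPolynomial (Fin m) (𝓞 k)) (σ : Fin r → Fin r),
      (¬ IsConstant (generic F) d → r ≤ N d) ∧
      IsPortrait (generic F)
        (fun i j => algebraMap (MvPolynomial (Fin m) (𝓞 k)) (RF k m) (x i j)) σ ∧
      AlmostAll ω m {v | IsMorphism (member F v) ∧
        IsPortrait (member F v) (fun i j => algebraMap (𝓞 k) k (eval v (x i j))) σ} := by
  obtain ⟨N, hN⟩ := Pool.Agent.Results.MP_9b502d_nt.AnyTranscendenceDegree.result.{0, 0}
  refine ⟨fun d => N d 0, ?_⟩
  intro k _ _ J _ ω d hd m F hF hmor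
  obtain ⟨r, x, σ, h1, h2⟩ := Pool.Agent.Q15.DYN.portraitIntO k J ω 1 d hd m F hF hmor
  refine ⟨r, x, σ, ?_, h1, h2⟩
  intro hcon
  obtain ⟨T, hT⟩ := Pool.Agent.Q15.DYN.exists_T' k m
  have hpt : (⊤ : IntermediateField k (FractionRing (MvPolynomial (Fin m) k))).FG ∧
      Pool.Agent.Results.MP_9b502d_nt.AnyTranscendenceDegree.PurelyTranscendental k
        (FractionRing (MvPolynomial (Fin m) k)) := Pool.Agent.Y706.UPO.pt_gen k (Fin m)
  obtain ⟨c, hc0, hc⟩ := hN k (FractionRing (MvPolynomial (Fin m) k)) (Or.inl hpt.1)
  have hc1 : c = 0 := hc0 hpt.2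
  subst hc1
  have hFK : ∀ i, (generic F i).IsHomogeneous d := fun i => (hF i).map _
  refine Pool.Agent.Y706.UPO.card_portrait (by omega) hFK hmor h1 ?_
  intro hco hmax
  refine (Pool.Agent.Q15.DYN.encard_ratP1_map T _ _ d).trans ?_
  have hmax' : max ((Pool.Agent.Y706.UPO.deh (generic F 0)).map T).natDegree
      ((Pool.Agent.Y706.UPO.deh (generic F 1)).map T).natDegree = d := by
    rw [Polynomial.natDegree_map, Polynomial.natDegree_map]
    exact hmax
  have h3 := hc d hd ((Pool.Agent.Y706.UPO.deh (generic F 0)).map T)
    ((Pool.Agent.Y706.UPO.deh (generic F 1)).map T) (hco.map (Polynomial.mapRingHom T)) hmax' (by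
    rintro ⟨a', b', c', e', hdet, u', w', huw, hu, hw, hua, hwa, heq⟩
    obtain ⟨a, rfl⟩ := hT a'
    obtain ⟨b, rfl⟩ := hT b'
    obtain ⟨c, rfl⟩ := hT c'
    obtain ⟨e, rfl⟩ := hT e'
    obtain ⟨u, rfl⟩ := Polynomial.map_surjective T hT u'
    obtain ⟨w, rfl⟩ := Polynomial.map_surjective T hT w'
    have hinj : Function.Injective (Polynomial.map T) := Polynomial.map_injective T T.injective
    refine hcon ⟨a, b, c, e, ?_, u, w, ?_, ?_, ?_, ?_, ?_, ?_⟩
    · intro h0
      apply hdet
      rw [← map_mul, ← map_mul, ← map_sub, h0, map_zero]
    · rcases huw with h | h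
      · left
        rintro rfl
        exact h (Polynomial.map_zero _)
      · right
        rintro rfl
        exact h (Polynomial.map_zero _)
    · rwa [Polynomial.natDegree_map] at hu
    · rwa [Polynomial.natDegree_map] at hw
    · intro n
      have := hua n
      rw [Polynomial.coeff_map] at this
      exact alg_down T _ this
    · intro n
      have := hwa n
      rw [Polynomial.coeff_map] at this
      exact alg_down T _ this
    · apply hinj
      simp only [Polynomial.map_mul, Polynomial.map_add, Polynomial.map_C, Polynomial.map_sum,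
        Polynomial.map_pow, Polynomial.map_X]
      simp only [Polynomial.coeff_map] at heq
      exact heq)
  have e : ∀ p q : Polynomial (FractionRing (MvPolynomial (Fin m) k)),
      Pool.Agent.Results.MP_9b502d_nt.AnyTranscendenceDegree.mapP1 p q d =
        Pool.Agent.W277.UH.ratP1 p q d := by
    intro p q
    funext z
    cases z <;> rfl
  rw [e] at h3
  exact h3

end Pool.Agent.Results.MP_90787a_nt.IntegralPortrait
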