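import Pool.Agent.Y673.PP.Fin
import Pool.Agent.Q327.MF.Field

/-!
# MP_90787a_nt: uniform boundedness for all but few members of every family of quadratic polynomials over
a number field, with any number of parameters from arbitrary finite sets

Let `n`, `r`, `d` and `ε > 0` be given.  There is `N` such that for every number field `K` of degree `n` and
all `A, B, E` in `K[t_1, ..., t_r]` of total degree at most `d`, such that `A E + B / 2 - B ² / 4` is not
constant, there is `C` with the following property: for ALL finite sets `S_1, ..., S_r` of elements of `K`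
of height at most `H`, with at least `m` elements each, at most

  `C H ^ ε |S_1| ⋯ |S_r| / m`

points `z ∈ S_1 × ⋯ × S_r` with `A(z) ≠ 0` are such that the quadratic polynomial
`A(z) x² + B(z) x + E(z)` has more than `N` preperiodic points in `K`.

(The polynomials `A x² + B x + E` and `x² + c`, `c = A E + B / 2 - B² / 4`, are conjugate; if `c` is
constant, all members are conjugate to each other.)  So for the parameters in a set `S` with about
`H ^ δ` elements, however small `δ > 0` is, and however the set is chosen, uniform boundedness holds for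
all but `O(|S| ^ (r - 1 + ε))` of the `|S| ^ r` members, with the bound `N` depending only on `n`, `r`,
`d` and `ε δ`, not on the number field of degree `n` and not on the family.

The starting file `FewExceptionalUnicritical` counts all parameters `c` of height at most `X`; in that
count the members of a family over a thin set are negligible.  The proof combines it (in the form
`Y673.PP.few_params`, which is uniform in the number field) with a bound for the heights of the values and
with the Schwartz-Zippel lemma for the hypersurfaces `A E + B / 2 - B² / 4 = c`.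
-/

set_option autoImplicit false

open Module

namespace Pool.Agent.Results.MP_90787a_nt.QuadraticFamilies

/-- The elements of the field `K` with a finite forward orbit under `x ↦ a x ^ 2 + b x + e`. -/
def preperiodic {K : Type} [Field K] (a b e : K) : Set K :=
  {x | (Set.range fun k : ℕ => (fun w : K => a * w ^ 2 + b * w + e)^[k] x).Finite}

/-- conjugation to `w ^ 2 + c` -/
theorem conj {K : Type} [Field K] [CharZero K] {a b e : K} (ha : a ≠ 0) :
    (preperiodic a b e).encard ≤
      {x : K | (Set.range fun k : ℕ =>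
        (fun w : K => w ^ 2 + (a * e + b / 2 - b ^ 2 / 4))^[k] x).Finite}.encard := by
  have hsc : Function.Semiconj (fun x : K => a * x + b / 2) (fun w : K => a * w ^ 2 + b * w + e)
      (fun w : K => w ^ 2 + (a * e + b / 2 - b ^ 2 / 4)) := by
    intro x
    show a * (a * x ^ 2 + b * x + e) + b / 2 = (a * x + b / 2) ^ 2 + (a * e + b / 2 - b ^ 2 / 4)
    ring
  have hinj : Function.Injective fun x : K => a * x + b / 2 := by
    intro x y h
    have h1 : a * x + b / 2 = a * y + b / 2 := h
    exact mul_left_cancel₀ ha (add_right_cancel h1)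
  apply Set.encard_le_encard_of_injOn (f := fun x : K => a * x + b / 2) _ hinj.injOn
  intro x hx
  apply (hx.image fun x : K => a * x + b / 2).subset
  rintro _ ⟨k, rfl⟩
  exact ⟨_, ⟨k, rfl⟩, (hsc.iterate_right k) x⟩

/-- **Uniform boundedness for all but few members of every family of quadratic polynomials.** -/
theorem result (n r d : ℕ) (ε : ℝ) (hε : 0 < ε) : ∃ N : ℕ,
    ∀ (K : Type) [Field K] [NumberField K], finrank ℚ K = n →
    ∀ A B E : MvPolynomial (Fin r) K, A.totalDegree ≤ d → B.totalDegree ≤ d → E.totalDegree ≤ d →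
      (∀ c : K, A * E + MvPolynomial.C (1 / 2) * B - MvPolynomial.C (1 / 4) * B ^ 2 ≠
        MvPolynomial.C c) → ∃ C : ℝ, ∀ H : ℝ, 1 ≤ H →
      -- finite sets `S_i` of at least `m` elements of `K` of height at most `H`
      ∀ (S : Fin r → Finset K) (m : ℕ), 1 ≤ m → (∀ i, m ≤ (S i).card) →
        (∀ i, ∀ x ∈ S i, Height.mulHeight₁ x ≤ H) →
        (Set.ncard {z : Fin r → K | (∀ i, z i ∈ S i) ∧ MvPolynomial.eval z A ≠ 0 ∧
          (N : ℕ∞) < (preperiodic (MvPolynomial.eval z A) (MvPolynomial.eval z B)
            (MvPolynomial.eval z E)).encard} : ℝ) ≤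
          C * H ^ ε * ((∏ i, ((S i).card : ℝ)) / m) := by
  classical
  set D : ℕ := 2 * d with hD
  set k : ℕ := 2 * ((D + 1) ^ r * (r * D)) with hk
  have hk0 : (0 : ℝ) < (k : ℝ) + 1 := by positivity
  set ε' : ℝ := ε / ((k : ℝ) + 1) with hε'
  have hε'0 : 0 < ε' := div_pos hε hk0
  rcases Nat.eq_zero_or_pos n with hn | hn
  · refine ⟨0, fun K _ _ hK => ?_⟩
    have := Module.finrank_pos (R := ℚ) (M := K)
    omega
  obtain ⟨N, C, h⟩ := Pool.Agent.Y673.PP.few_params (d := 2) le_rfl n hn ε' hε'0
  refine ⟨N, fun K _ _ hK A B E hA hB hE hind => ?_⟩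
  set P : MvPolynomial (Fin r) K :=
    A * E + MvPolynomial.C (1 / 2) * B - MvPolynomial.C (1 / 4) * B ^ 2 with hP
  have hPdeg : P.totalDegree ≤ D := by
    rw [hP]
    refine (MvPolynomial.totalDegree_sub _ _).trans (max_le ((MvPolynomial.totalDegree_add _ _).trans
      (max_le ?_ ?_)) ?_)
    · refine (MvPolynomial.totalDegree_mul _ _).trans ?_
      omega
    · refine (MvPolynomial.totalDegree_mul _ _).trans ?_
      rw [MvPolynomial.totalDegree_C]
      omega
    · refine (MvPolynomial.totalDegree_mul _ _).trans ?_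
      rw [MvPolynomial.totalDegree_C]
      refine (Nat.zero_add _).le.trans ((MvPolynomial.totalDegree_pow _ _).trans ?_)
      omega
  have h1deg : (1 : MvPolynomial (Fin r) K).totalDegree ≤ D := by
    rw [MvPolynomial.totalDegree_one]
    exact Nat.zero_le _
  obtain ⟨M, hM, hval⟩ := Pool.Agent.Q327.MF.height_quot P 1 hPdeg h1deg
  have hM0 : 0 ≤ M := zero_le_one.trans hM
  refine ⟨C * M ^ ε' * D, fun H hH S m hm1 hm hS => ?_⟩
  have hH0 : 0 ≤ H := zero_le_one.trans hH
  have hX1 : 1 ≤ M * H ^ k := one_le_mul_of_one_le_of_one_le hM (one_le_pow₀ hH)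
  obtain ⟨hfin, hcard⟩ := h K hK (M * H ^ k) hX1
  set J : Finset K := hfin.toFinset with hJ
  set T : Set (Fin r → K) := {z : Fin r → K | (∀ i, z i ∈ S i) ∧ MvPolynomial.eval z A ≠ 0 ∧
          (N : ℕ∞) < (preperiodic (MvPolynomial.eval z A) (MvPolynomial.eval z B)
            (MvPolynomial.eval z E)).encard} with hT
  have hTfin : T.Finite := ((Fintype.piFinset S).finite_toSet).subset fun z hz =>
    Finset.mem_coe.2 (Fintype.mem_piFinset.2 hz.1)
  have hev1 : ∀ z : Fin r → K, MvPolynomial.eval z P / MvPolynomial.eval z 1 =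
      MvPolynomial.eval z A * MvPolynomial.eval z E + MvPolynomial.eval z B / 2 -
        MvPolynomial.eval z B ^ 2 / 4 := by
    intro z
    rw [map_one, div_one, hP]
    simp only [map_sub, map_add, map_mul, map_pow, MvPolynomial.eval_C]
    ring
  have hcount := Pool.Agent.Q327.MF.count_field P 1 hPdeg h1deg (fun j hj => hind j (by
    rw [mul_one] at hj
    exact hj)) S hm J hTfin.toFinset (fun z hz => by
      obtain ⟨h1, h2, h3⟩ := hTfin.mem_toFinset.1 hz
      refine ⟨h1, ?_, hfin.mem_toFinset.2 ⟨?_, ?_⟩⟩
      · rw [map_one]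
        exact one_ne_zero
      · exact hval H hH z fun i => hS i _ (h1 i)
      · rw [hev1]
        exact h3.trans_le (conj h2))
  rw [← Set.ncard_eq_toFinset_card T hTfin, ← Set.ncard_eq_toFinset_card _ hfin] at hcount
  have hmpos : (0 : ℝ) < m := by exact_mod_cast hm1
  have hcount' := (Nat.cast_le (α := ℝ)).2 hcount
  push_cast at hcount'
  have hC0 : 0 ≤ C := by
    have h2 := (h K hK 1 le_rfl).2
    rw [Real.one_rpow, mul_one] at h2
    exact (Nat.cast_nonneg _).trans h2
  have hXe : (M * H ^ k) ^ ε' ≤ M ^ ε' * H ^ ε := by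
    rw [Real.mul_rpow hM0 (pow_nonneg hH0 _), ← Real.rpow_natCast, ← Real.rpow_mul hH0]
    apply mul_le_mul_of_nonneg_left _ (Real.rpow_nonneg hM0 _)
    apply Real.rpow_le_rpow_of_exponent_le hH
    rw [hε', mul_div_assoc', div_le_iff₀ hk0]
    nlinarith
  have hprod : (0 : ℝ) ≤ (D : ℝ) * ∏ i, ((S i).card : ℝ) :=
    mul_nonneg (Nat.cast_nonneg _) (Finset.prod_nonneg fun _ _ => Nat.cast_nonneg _)
  have h1 := hcard.trans (mul_le_mul_of_nonneg_left hXe hC0)
  have hD2 : ((2 : ℝ) * (d : ℝ)) = (D : ℝ) := by rw [hD]; push_cast; rfl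
  have h2 : (m : ℝ) * (T.ncard : ℝ) ≤ C * (M ^ ε' * H ^ ε) * (D * ∏ i, ((S i).card : ℝ)) := by
    refine le_trans ?_ (mul_le_mul_of_nonneg_right h1 hprod)
    rw [← hD2]
    first
      | exact hcount'
      | (rw [hD2]; exact hcount')
  rw [← mul_div_assoc, le_div_iff₀ hmpos]
  calc (T.ncard : ℝ) * m = m * T.ncard := mul_comm _ _
    _ ≤ C * (M ^ ε' * H ^ ε) * (D * ∏ i, ((S i).card : ℝ)) := h2
    _ = C * M ^ ε' * D * H ^ ε * ∏ i, ((S i).card : ℝ) := by ring

end Pool.Agent.Results.MP_90787a_nt.QuadraticFamilies
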