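import Mathlib
import Pool.Agent.Results.MP_90787a_nt.FewExceptionalUnicritical
import Pool.Agent.Q21.DW.Cnt

/-!
# Uniform boundedness for all unicritical polynomials of random size over all number fields of degree `D`

The size of an algebraic number `t` of degree at most `D` is the least maximum of the absolute values of
the coefficients of a nonzero integral polynomial of degree at most `D` which vanishes at `t`. For every
`s > 0` there are `N(d, D)` such that for ALL `d ≥ 2`, ALL `D`, ALL number fields `K` of degree at most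
`D` and ALL `a, b ∈ K` such that the size of `a b ^ (d - 1)` is an integer given by the digits or the
multiples of a random real number (in the sense of `RandomReals s`) the polynomial `a z ^ d + b` has at
most `N(d, D)` preperiodic points in `K`.
-/

set_option autoImplicit false

open Module

namespace Pool.Agent.Results.MP_90787a_nt.RandomParameters

open FewExceptionalUnicritical (HeightLE preperiodic boundedDegree)

/-- The size of `t` is `m`: `t` is a root of a nonzero integral polynomial of degree at most `D` with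
coefficients at most `m` in absolute value, and `m` is the least natural number with this property. -/
def SizeEq (D : ℕ) (t : ℂ) (m : ℕ) : Prop :=
  HeightLE D (m : ℝ) t ∧ ∀ l : ℕ, HeightLE D (l : ℝ) t → m ≤ l

/-- For ALL complex numbers `a`, `b` such that `a b ^ (d - 1)` has the size `m` (for the degree `D`) the
polynomial `a z ^ d + b` has at most `N` preperiodic points `z` such that `ℚ(a, b, z)` has degree at most
`D`; and for ALL number fields `K` of degree at most `D` and all `a, b ∈ K` such that `a b ^ (d - 1)` has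
the size `m` under some embedding, `a z ^ d + b` has at most `N` preperiodic points in `K`. -/
def Bounded (d D N m : ℕ) : Prop :=
  (∀ a b : ℂ, SizeEq D (a * b ^ (d - 1)) m →
    (preperiodic d a b ∩ boundedDegree D a b).Finite ∧
    (preperiodic d a b ∩ boundedDegree D a b).ncard ≤ N) ∧
  (∀ (K : Type) [Field K] [NumberField K], finrank ℚ K ≤ D → ∀ (σ : K →+* ℂ) (a b : K),
    SizeEq D (σ (a * b ^ (d - 1))) m → (preperiodic d a b).Finite ∧ (preperiodic d a b).ncard ≤ N)

lemma HeightLE.mono {D : ℕ} {X Y : ℝ} {t : ℂ} (h : HeightLE D X t) (hXY : X ≤ Y) : HeightLE D Y t := by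
  obtain ⟨P, h0, h1, h2, h3⟩ := h
  exact ⟨P, h0, h1, fun i => (h2 i).trans hXY, h3⟩

open Classical in
/-- the least `m` with `HeightLE D m t` -/
noncomputable def sz (D : ℕ) (t : ℂ) : ℕ :=
  if h : ∃ m : ℕ, HeightLE D (m : ℝ) t then Nat.find h else 0

lemma sz_eq {D : ℕ} {t : ℂ} {m : ℕ} (h : SizeEq D t m) : sz D t = m := by
  classical
  have h1 : ∃ m : ℕ, HeightLE D (m : ℝ) t := ⟨m, h.1⟩
  unfold sz
  rw [dif_pos h1]
  exact le_antisymm (Nat.find_le h.1) (h.2 _ (Nat.find_spec h1))

/-- Every algebraic number of degree at most `D` has a size. -/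
theorem exists_size (D : ℕ) (t : ℂ) (P : Polynomial ℤ) (hP : P ≠ 0) (hD : P.natDegree ≤ D)
    (ht : Polynomial.aeval t P = 0) : ∃ m : ℕ, SizeEq D t m := by
  classical
  have h : ∃ m : ℕ, HeightLE D (m : ℝ) t := by
    refine ⟨∑ i ∈ P.support, (P.coeff i).natAbs, P, hP, hD, fun i => ?_, ht⟩
    by_cases hi : i ∈ P.support
    · have h1 : (P.coeff i).natAbs ≤ ∑ i ∈ P.support, (P.coeff i).natAbs :=
        Finset.single_le_sum (f := fun i => (P.coeff i).natAbs) (fun _ _ => Nat.zero_le _) hi
      calc |((P.coeff i : ℤ) : ℝ)| = (((P.coeff i).natAbs : ℕ) : ℝ) := by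
            rw [Nat.cast_natAbs, Int.cast_abs]
        _ ≤ _ := by exact_mod_cast h1
    · rw [Polynomial.notMem_support_iff.1 hi, Int.cast_zero, abs_zero]
      exact Nat.cast_nonneg _
  exact ⟨Nat.find h, Nat.find_spec h, fun l hl => Nat.find_le hl⟩

/-- **Theorem.** Let `0 < s < 1`. There are numbers `N (d, D)` such that, in the sense of
`RandomReals s` (windows of digits in all bases, and integers near the multiples `α v_k`, for random real
numbers `α`, with Hausdorff dimensions and measures of the exceptional sets), for all `d ≥ 2` and all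
`D` the bound `Bounded d D (N (d, D)) m` holds, `m` the random integer. -/
theorem result :
    (∀ (D : ℕ) (t : ℂ) (P : Polynomial ℤ), P ≠ 0 → P.natDegree ≤ D → Polynomial.aeval t P = 0 →
      ∃ m : ℕ, SizeEq D t m) ∧
    ∀ s : ℝ, 0 < s → s < 1 → ∃ N : ℕ × ℕ → ℕ,
      Pool.Agent.Q21.DW.RandomReals s
        (fun (i : ℕ × ℕ) (m : ℕ) => 2 ≤ i.1 → Bounded i.1 i.2 (N i) m) := by
  refine ⟨exists_size, fun s hs hs1 => ?_⟩
  have key : ∀ i : ℕ × ℕ, ∃ N : ℕ, 2 ≤ i.1 → ∃ (C : ℝ) (E : Set ℂ),
      (∀ X : ℝ, 1 ≤ X → {t | t ∈ E ∧ HeightLE i.2 X t}.Finite ∧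
        ({t | t ∈ E ∧ HeightLE i.2 X t}.ncard : ℝ) ≤ C * X ^ s) ∧
      (∀ a b : ℂ, a * b ^ (i.1 - 1) ∉ E →
        (preperiodic i.1 a b ∩ boundedDegree i.2 a b).Finite ∧
        (preperiodic i.1 a b ∩ boundedDegree i.2 a b).ncard ≤ N) ∧
      (∀ (K : Type) [Field K] [NumberField K], finrank ℚ K ≤ i.2 → ∀ (σ : K →+* ℂ) (a b : K),
        σ (a * b ^ (i.1 - 1)) ∉ E →
        (preperiodic i.1 a b).Finite ∧ (preperiodic i.1 a b).ncard ≤ N) := by
    intro i
    by_cases hd : 2 ≤ i.1
    · obtain ⟨N, C, E, h1, h2, h3⟩ := FewExceptionalUnicritical.result i.1 hd i.2 s hs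
      exact ⟨N, fun _ => ⟨C, E, h1, h2, h3⟩⟩
    · exact ⟨0, fun h => absurd h hd⟩
  choose N hN using key
  refine ⟨N, Pool.Agent.Q21.DW.randomReals_of
    (B := fun (i : ℕ × ℕ) (m : ℕ) => 2 ≤ i.1 ∧ ¬ Bounded i.1 i.2 (N i) m)
    hs.le hs1 (fun i => ?_) (fun i m _ h h2 => ?_)⟩
  · by_cases hd : 2 ≤ i.1
    · obtain ⟨C, E, hC, h2, h3⟩ := hN i hd
      refine Pool.Agent.Q21.DW.ps_of (fun X : ℕ => {t | t ∈ E ∧ HeightLE i.2 (X : ℝ) t}) (sz i.2)
        _ _ ?_ ?_
      · intro ε hε
        refine ⟨|C|, fun X hX => ?_⟩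
        have hX1 : (1 : ℝ) ≤ X := by exact_mod_cast hX
        obtain ⟨h4, h5⟩ := hC X hX1
        refine ⟨h4, h5.trans ?_⟩
        calc C * (X : ℝ) ^ s ≤ |C| * (X : ℝ) ^ s :=
              mul_le_mul_of_nonneg_right (le_abs_self C) (by positivity)
          _ ≤ |C| * (X : ℝ) ^ (s + ε) := mul_le_mul_of_nonneg_left
              (Real.rpow_le_rpow_of_exponent_le hX1 (by linarith)) (abs_nonneg C)
      · intro m X hm hmX hB
        have hmXR : (m : ℝ) ≤ X := by exact_mod_cast hmX
        by_contra hcon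
        have hno : ∀ t : ℂ, SizeEq i.2 t m → t ∉ E := by
          intro t ht htE
          exact hcon ⟨t, ⟨htE, HeightLE.mono ht.1 hmXR⟩, sz_eq ht⟩
        refine hB.2 ⟨fun a b hab => h2 a b (hno _ hab), ?_⟩
        intro K _ _ hK σ a b hab
        exact h3 K hK σ a b (hno _ hab)
    · exact Pool.Agent.Q21.DW.ps_false fun m hm => hd hm.1
  · by_contra hcon
    exact h ⟨h2, hcon⟩

end Pool.Agent.Results.MP_90787a_nt.RandomParameters
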